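import Pool.Agent.helper91.HZ.Spec

/-!
# Row hz:RMU: reductions are compatible with sums and products
-/

namespace Pool.Agent.HZ

open Matrix Polynomial Pool.Agent.GO Pool.Agent.AR Pool.Agent.RG NumberField

theorem RMU_zero {E κ : Type} [Field E] [Field κ] (φ : 𝓞 E →+* κ) : Red φ (0 : E) (0 : κ) :=
  ⟨0, 1, by simp, by simp, by simp⟩

theorem RMU_one {E κ : Type} [Field E] [Field κ] (φ : 𝓞 E →+* κ) : Red φ (1 : E) (1 : κ) :=
  ⟨1, 1, by simp, by simp, by simp⟩

theorem RMU_add {E κ : Type} [Field E] [Field κ] (φ : 𝓞 E →+* κ) (x x' : E) (y y' : κ)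
    (h : Red φ x y) (h' : Red φ x' y') : Red φ (x + x') (y + y') := by
  obtain ⟨a, m, h1, h2, h3⟩ := h
  obtain ⟨a', m', h1', h2', h3'⟩ := h'
  refine ⟨(m' : 𝓞 E) * a + (m : 𝓞 E) * a', m * m', ?_, ?_, ?_⟩
  · push_cast
    exact mul_ne_zero h1 h1'
  · rw [map_add, map_mul, map_mul, map_natCast, map_natCast, ← h2, ← h2']
    push_cast
    ring
  · rw [map_add, map_mul, map_mul, map_natCast, map_natCast, ← h3, ← h3']
    push_cast
    ring

theorem RMU_mul {E κ : Type} [Field E] [Field κ] (φ : 𝓞 E →+* κ) (x x' : E) (y y' : κ)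
    (h : Red φ x y) (h' : Red φ x' y') : Red φ (x * x') (y * y') := by
  obtain ⟨a, m, h1, h2, h3⟩ := h
  obtain ⟨a', m', h1', h2', h3'⟩ := h'
  refine ⟨a * a', m * m', ?_, ?_, ?_⟩
  · push_cast
    exact mul_ne_zero h1 h1'
  · rw [map_mul, ← h2, ← h2']
    push_cast
    ring
  · rw [map_mul, ← h3, ← h3']
    push_cast
    ring

theorem RMU_sum {E κ : Type} [Field E] [Field κ] (φ : 𝓞 E →+* κ) {ι : Type} (s : Finset ι)
    (f : ι → E) (g : ι → κ) (h : ∀ i ∈ s, Red φ (f i) (g i)) :
    Red φ (∑ i ∈ s, f i) (∑ i ∈ s, g i) := by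
  classical
  induction s using Finset.induction_on with
  | empty =>
    rw [Finset.sum_empty, Finset.sum_empty]
    exact RMU_zero φ
  | insert a s ha ih =>
    rw [Finset.sum_insert ha, Finset.sum_insert ha]
    exact RMU_add φ _ _ _ _ (h a (Finset.mem_insert_self a s))
      (ih fun i hi => h i (Finset.mem_insert_of_mem hi))

theorem RMU : RMU_stmt := by
  intro E κ _ _ φ
  refine ⟨fun x x' y y' h h' => ⟨RMU_add φ x x' y y' h h', RMU_mul φ x x' y y' h h'⟩, ?_⟩
  intro r P P' hP
  classical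
  have key : ∀ (s : Finset (Fin r)) (l : ℕ),
      Red φ ((∏ i ∈ s, P i).coeff l) ((∏ i ∈ s, P' i).coeff l) := by
    intro s
    induction s using Finset.induction_on with
    | empty =>
      intro l
      rw [Finset.prod_empty, Finset.prod_empty, Polynomial.coeff_one, Polynomial.coeff_one]
      split_ifs
      · exact RMU_one φ
      · exact RMU_zero φ
    | insert a s ha ih =>
      intro l
      rw [Finset.prod_insert ha, Finset.prod_insert ha, Polynomial.coeff_mul,
        Polynomial.coeff_mul]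
      exact RMU_sum φ _ _ _ fun x _ => RMU_mul φ _ _ _ _ (hP a x.1) (ih x.2)
  intro l
  exact key Finset.univ l

end Pool.Agent.HZ
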